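import Pool.Agent.N70.EQ.Stm

/-!
Project EQ (helper70): a Kummer generator for a character of a subgroup (helper441).
-/

set_option autoImplicit false

namespace Pool.Agent.N441.EQ

theorem ka_aux (K F Z : Type) [Field K] [Field F] [Field Z] [Algebra F Z] [Algebra K Z]
    [Algebra K F] [IsScalarTower K F Z] [FiniteDimensional F Z]
    (P : Subgroup (Z ≃ₐ[F] Z)) (θ : P →* Kˣ) : ∃ z : Z, z ≠ 0 ∧
      ∀ γ : P, (γ : Z ≃ₐ[F] Z) z = algebraMap K Z (θ γ : K) * z := by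
  classical
  have hfin : Fintype P := Fintype.ofFinite P
  have hli : LinearIndependent Z (fun h : P => ((h : Z ≃ₐ[F] Z) : Z → Z)) :=
    (linearIndependent_monoidHom Z Z).comp (fun h : P => ((h : Z ≃ₐ[F] Z) : Z →* Z))
      (fun h h' hh => Subtype.ext (AlgEquiv.ext fun x => DFunLike.congr_fun hh x))
  have hx : ∃ x : Z, ∑ h : P, algebraMap K Z ((θ h)⁻¹ : Kˣ) * (h : Z ≃ₐ[F] Z) x ≠ 0 := by
    by_contra hcon
    push Not at hcon
    have h1 := Fintype.linearIndependent_iff.1 hli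
      (fun h => algebraMap K Z ((θ h)⁻¹ : Kˣ)) (by
        funext x
        rw [Finset.sum_apply]
        simp only [Pi.smul_apply, smul_eq_mul, Pi.zero_apply]
        exact hcon x) 1
    rw [map_one, inv_one, Units.val_one, map_one] at h1
    exact one_ne_zero h1
  obtain ⟨x, hx⟩ := hx
  refine ⟨∑ h : P, algebraMap K Z ((θ h)⁻¹ : Kˣ) * (h : Z ≃ₐ[F] Z) x, hx, fun γ => ?_⟩
  have hK : ∀ a : K, (γ : Z ≃ₐ[F] Z) (algebraMap K Z a) = algebraMap K Z a := by
    intro a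
    rw [IsScalarTower.algebraMap_apply K F Z, AlgEquiv.commutes]
  rw [map_sum, Finset.mul_sum, ← Equiv.sum_comp (Equiv.mulLeft γ)
    (fun h : P => algebraMap K Z (θ γ : K) * (algebraMap K Z ((θ h)⁻¹ : Kˣ) *
      (h : Z ≃ₐ[F] Z) x))]
  refine Finset.sum_congr rfl fun h _ => ?_
  rw [map_mul, hK, Equiv.coe_mulLeft, map_mul θ, ← mul_assoc, ← map_mul]
  have h3 : (θ γ : K) * (((θ γ * θ h)⁻¹ : Kˣ) : K) = ((θ h)⁻¹ : Kˣ) := by
    rw [← Units.val_mul, mul_inv, mul_inv_cancel_left]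
  rw [h3]
  rfl

theorem t_ka : Pool.Agent.N70.EQ.St_ka := by
  intro K Z _ _ _ _ _ _ P θ
  exact ka_aux K (RatFunc K) Z P θ

end Pool.Agent.N441.EQ
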